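import Pool.Agent.H94.G4T.M58

/-!
# G3 C QFa: the jet form in a straight chart

`OD` is the preimage of a ball under an affine map.  `crv_dir`: `χ.σ` of a point of the ball over `c + ρ tl = b + (s + t) ν + z a`.  `QF_analytic`: `P.analytic` with
`E = ℂ × ℂ × (Fin (m + 1) → ℂ)` and `φ (q, t) = crv b ν a χ c ρ q t`.
-/

set_option autoImplicit false

open Topology Filter Metric

namespace Pool.Agent.G3.C

open Pool.Agent.H36.BP (EN fs wd)
open Pool.Agent.H62.EF (MN pr)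
open Pool.Agent.AD (Vd Chart Charts)
open Pool.Agent.TG (TMap Lat Str ms tl)

variable {N k : ℕ} {X : Set (EN N)} {Λ : AddSubgroup (Vd (k + 1))} {u : EN N → Vd (k + 1)} {ν a b c : Vd (k + 1)} {m : ℕ} {ρ : ℝ}

theorem ms_cz (hρ : 0 < ρ) (x s z : ℂ) : ms c ρ (cz b ν a c ρ x s z) = b + s • ν + z • a := by
  have h0 : (ρ : ℂ) ≠ 0 := by exact_mod_cast hρ.ne'
  have h1 : tl (cz b ν a c ρ x s z) = tz b ν a c ρ s z := by
    funext i
    rfl
  unfold ms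
  rw [h1]
  unfold tz
  rw [smul_smul, mul_inv_cancel₀ h0, one_smul]
  abel

theorem cz_analytic {E : Type*} [NormedAddCommGroup E] [NormedSpace ℂ E] {f g h : E → ℂ} {p : E} (hf : AnalyticAt ℂ f p) (hg : AnalyticAt ℂ g p)
    (hh : AnalyticAt ℂ h p) : AnalyticAt ℂ (fun q => cz b ν a c ρ (f q) (g q) (h q)) p := by
  rw [analyticAt_pi_iff]
  intro i
  refine Fin.cases ?_ (fun j => ?_) i
  · exact hf
  · have h1 : (fun q => cz b ν a c ρ (f q) (g q) (h q) j.succ) =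
        fun q => (ρ : ℂ)⁻¹ * (b j + g q * ν j + h q * a j - c j) := by
      funext q
      rfl
    rw [h1]
    exact analyticAt_const.mul (((analyticAt_const.add (hg.mul analyticAt_const)).add (hh.mul analyticAt_const)).sub analyticAt_const)

theorem pol_analytic {E : Type*} [NormedAddCommGroup E] [NormedSpace ℂ E] {v : E → Fin (m + 1) → ℂ} {f : E → ℂ} {p : E} (hv : AnalyticAt ℂ v p)
    (hf : AnalyticAt ℂ f p) : AnalyticAt ℂ (fun q => pol (v q) (f q)) p := by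
  unfold pol
  refine Finset.analyticAt_fun_sum _ fun j _ => ?_
  exact ((analyticAt_pi_iff.1 hv j).div_const).mul (hf.pow _)

private theorem pol_zero' (v : Fin (m + 1) → ℂ) : pol v 0 = v 0 := by
  unfold pol
  rw [Finset.sum_eq_single (0 : Fin (m + 1))]
  · simp
  · intro j _ hj
    have h1 : (j : ℕ) ≠ 0 := fun h => hj (Fin.ext h)
    rw [zero_pow h1, mul_zero]
  · intro h
    exact absurd (Finset.mem_univ _) h

private theorem an_fst : ∀ q : ℂ × ℂ × (Fin (m + 1) → ℂ), AnalyticAt ℂ (fun q : ℂ × ℂ × (Fin (m + 1) → ℂ) => q.1) q := fun _ => analyticAt_fst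

private theorem an_mid : ∀ q : ℂ × ℂ × (Fin (m + 1) → ℂ), AnalyticAt ℂ (fun q : ℂ × ℂ × (Fin (m + 1) → ℂ) => q.2.1) q := fun _ =>
  AnalyticAt.fun_comp (g := Prod.fst) analyticAt_fst analyticAt_snd

private theorem an_lst : ∀ q : ℂ × ℂ × (Fin (m + 1) → ℂ), AnalyticAt ℂ (fun q : ℂ × ℂ × (Fin (m + 1) → ℂ) => q.2.2) q := fun _ =>
  AnalyticAt.fun_comp (g := Prod.snd) analyticAt_snd analyticAt_snd

theorem OD_open : IsOpen (OD b ν a c ρ m) := by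
  unfold OD
  refine isOpen_ball.preimage (f := fun q : ℂ × ℂ × (Fin (m + 1) → ℂ) => cz b ν a c ρ (q.2.2 0) q.1 q.2.1) ?_
  rw [continuous_iff_continuousAt]
  intro q
  exact (cz_analytic (analyticAt_pi_iff.1 (an_lst q) 0) (an_fst q) (an_mid q)).continuousAt

theorem OD_convex : Convex ℝ (OD b ν a c ρ m) := by
  intro q hq q' hq' α β hα hβ hαβ
  have hC : (α : ℂ) + β = 1 := by exact_mod_cast hαβ
  have key : cz b ν a c ρ ((α • q + β • q').2.2 0) (α • q + β • q').1 (α • q + β • q').2.1 =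
      α • cz b ν a c ρ (q.2.2 0) q.1 q.2.1 + β • cz b ν a c ρ (q'.2.2 0) q'.1 q'.2.1 := by
    funext i
    refine Fin.cases ?_ (fun j => ?_) i
    · rfl
    · change (ρ : ℂ)⁻¹ * (b j + (α • q + β • q').1 * ν j + (α • q + β • q').2.1 * a j - c j) =
        α • ((ρ : ℂ)⁻¹ * (b j + q.1 * ν j + q.2.1 * a j - c j)) +
          β • ((ρ : ℂ)⁻¹ * (b j + q'.1 * ν j + q'.2.1 * a j - c j))
      simp only [Prod.fst_add, Prod.snd_add, Prod.smul_fst, Prod.smul_snd, Complex.real_smul]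
      have h1 : (β : ℂ) = 1 - α := by rw [← hC]; ring
      rw [h1]
      ring
  change cz b ν a c ρ ((α • q + β • q').2.2 0) (α • q + β • q').1 (α • q + β • q').2.1 ∈ ball (0 : Vd (k + 2)) 2
  rw [key]
  exact convex_ball (0 : Vd (k + 2)) 2 hq hq' hα hβ hαβ

theorem OD_dep (s z : ℂ) (v v' : Fin (m + 1) → ℂ) (h : v 0 = v' 0) (hv : (s, z, v) ∈ OD b ν a c ρ m) : (s, z, v') ∈ OD b ν a c ρ m := by
  change cz b ν a c ρ (v' 0) s z ∈ ball (0 : Vd (k + 2)) 2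
  rw [← h]
  exact hv

/-- the family of the curves is analytic and its points lie in the chart -/
private theorem fam {χ : Chart (k + 2) X} (hs : Str Λ u χ c ρ) {q : ℂ × ℂ × (Fin (m + 1) → ℂ)} (hq : q ∈ OD b ν a c ρ m) :
    AnalyticAt ℂ (fun y : (ℂ × ℂ × (Fin (m + 1) → ℂ)) × ℂ => crv b ν a χ c ρ y.1 y.2) (q, 0) ∧
      ∀ᶠ y in 𝓝 ((q, 0) : (ℂ × ℂ × (Fin (m + 1) → ℂ)) × ℂ), crv b ν a χ c ρ y.1 y.2 ∈ X ∧
        u (crv b ν a χ c ρ y.1 y.2) - (u (crv b ν a χ c ρ y.1 0) + y.2 • ν) ∈ Λ := by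
  set G : (ℂ × ℂ × (Fin (m + 1) → ℂ)) × ℂ → Vd (k + 2) := fun y =>
    cz b ν a c ρ (pol y.1.2.2 y.2) (y.1.1 + y.2) y.1.2.1 with hG
  have hfst : ∀ y : (ℂ × ℂ × (Fin (m + 1) → ℂ)) × ℂ, AnalyticAt ℂ (fun y : (ℂ × ℂ × (Fin (m + 1) → ℂ)) × ℂ => y.1) y :=
    fun _ => analyticAt_fst
  have hGan : ∀ y, AnalyticAt ℂ G y := by
    intro y
    refine cz_analytic (pol_analytic ?_ analyticAt_snd) (AnalyticAt.add ?_ analyticAt_snd) ?_
    · exact (an_lst y.1).comp (hfst y)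
    · exact (an_fst y.1).comp (hfst y)
    · exact (an_mid y.1).comp (hfst y)
  have hG0 : ∀ p : ℂ × ℂ × (Fin (m + 1) → ℂ), G (p, 0) = cz b ν a c ρ (p.2.2 0) p.1 p.2.1 := by
    intro p
    simp only [hG, pol_zero', add_zero]
  have hmem : G (q, 0) ∈ ball (0 : Vd (k + 2)) 2 := by
    rw [hG0]
    exact hq
  constructor
  · exact AnalyticAt.fun_comp (g := χ.σ) (f := G) (χ.σ_an _ hmem) (hGan _)
  · have h1 : ∀ᶠ y in 𝓝 ((q, 0) : (ℂ × ℂ × (Fin (m + 1) → ℂ)) × ℂ), G y ∈ ball (0 : Vd (k + 2)) 2 :=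
      (hGan _).continuousAt.eventually (isOpen_ball.mem_nhds hmem)
    have h2 : ∀ᶠ y in 𝓝 ((q, 0) : (ℂ × ℂ × (Fin (m + 1) → ℂ)) × ℂ), G (y.1, 0) ∈ ball (0 : Vd (k + 2)) 2 := by
      have hc : ContinuousAt (fun y : (ℂ × ℂ × (Fin (m + 1) → ℂ)) × ℂ => G (y.1, 0)) (q, 0) := by
        refine ContinuousAt.comp (g := G) (f := fun y : (ℂ × ℂ × (Fin (m + 1) → ℂ)) × ℂ => (y.1, (0 : ℂ))) (hGan _).continuousAt ?_
        fun_prop
      exact hc.eventually (isOpen_ball.mem_nhds hmem)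
    filter_upwards [h1, h2] with y hy1 hy2
    refine ⟨(χ.σ_mem _ hy1).1, ?_⟩
    have h3 := hs.lift _ hy1
    have h4 := hs.lift _ hy2
    have h5 : ms c ρ (G y) = ms c ρ (G (y.1, 0)) + y.2 • ν := by
      simp only [hG]
      rw [ms_cz hs.pos, ms_cz hs.pos, add_zero, add_smul]
      abel
    have h6 : u (χ.σ (G y)) - (u (χ.σ (G (y.1, 0))) + y.2 • ν) =
        (u (χ.σ (G y)) - ms c ρ (G y)) - (u (χ.σ (G (y.1, 0))) - ms c ρ (G (y.1, 0))) := by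
      rw [h5]
      abel
    change u (χ.σ (G y)) - (u (χ.σ (G (y.1, 0))) + y.2 • ν) ∈ Λ
    rw [h6]
    exact Λ.sub_mem h3 h4

theorem crv_dir {χ : Chart (k + 2) X} (hs : Str Λ u χ c ρ) {q : ℂ × ℂ × (Fin (m + 1) → ℂ)} (hq : q ∈ OD b ν a c ρ m) :
    DirC X Λ u ν (crv b ν a χ c ρ q) := by
  obtain ⟨h1, h2⟩ := fam hs hq
  have hc : AnalyticAt ℂ (fun t : ℂ => ((q, t) : (ℂ × ℂ × (Fin (m + 1) → ℂ)) × ℂ)) 0 :=
    analyticAt_const.prod analyticAt_id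
  refine ⟨?_, ?_⟩
  · exact AnalyticAt.fun_comp (g := fun y : (ℂ × ℂ × (Fin (m + 1) → ℂ)) × ℂ => crv b ν a χ c ρ y.1 y.2)
      (f := fun t : ℂ => ((q, t) : (ℂ × ℂ × (Fin (m + 1) → ℂ)) × ℂ)) h1 hc
  · exact hc.continuousAt.eventually h2

theorem QF_analytic (P : JForm X Λ u ν m) {χ : Chart (k + 2) X} (hs : Str Λ u χ c ρ) : AnalyticOnNhd ℂ (QF P b a χ c ρ) (OD b ν a c ρ m) := by
  intro q hq
  obtain ⟨h1, h2⟩ := fam hs hq
  refine P.analytic (ℂ × ℂ × (Fin (m + 1) → ℂ)) (fun y => crv b ν a χ c ρ y.1 y.2) q h1 h2 ⟨χ, c, ρ, hs, cz b ν a c ρ (q.2.2 0) q.1 q.2.1, hq, ?_⟩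
  change χ.σ _ = χ.σ (cz b ν a c ρ (pol q.2.2 0) (q.1 + 0) q.2.1)
  rw [pol_zero', add_zero]

end Pool.Agent.G3.C
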